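import Pool.Agent.HomI.Def
import Pool.Agent.HomV.Defs

/-!
# The class of sparse graphs
-/

set_option autoImplicit false

namespace Pool.Agent.HomI

open Pool.Agent.HomV

variable {V : Type}

/-- the subgraph of `F` induced by `A` (on the same vertex type; the vertices outside `A` are
isolated) -/
def ind (F : SimpleGraph V) (A : Set V) : SimpleGraph V where
  Adj u v := F.Adj u v ∧ u ∈ A ∧ v ∈ A
  symm := ⟨fun _ _ h => ⟨h.1.symm, h.2.2, h.2.1⟩⟩
  loopless := ⟨fun _ h => h.1.ne rfl⟩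

/-- The closure under gluing along complete subgraphs of the following graphs: the graphs obtained
by clique sums of order at most `k` from `k`-nearly embeddable graphs, and the graphs without an
immersion of the complete graph with `k` vertices. -/
inductive Sparse (k : ℕ) : SimpleGraph V → Prop
  | minor (F : SimpleGraph V) (h : InClass k F) : Sparse k F
  | immersion (F : SimpleGraph V) (h : IsEmpty (CliqueImm k F)) : Sparse k F
  | glue (F : SimpleGraph V) (A B : Set V) (hAB : A ∪ B = Set.univ)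
      (hadj : ∀ u v, F.Adj u v → (u ∈ A ∧ v ∈ A) ∨ (u ∈ B ∧ v ∈ B))
      (hcomplete : ∀ u ∈ A ∩ B, ∀ v ∈ A ∩ B, u ≠ v → F.Adj u v)
      (hA : Sparse k (ind F A)) (hB : Sparse k (ind F B)) : Sparse k F

theorem torso_eq_ind {F : SimpleGraph V} {A B : Set V}
    (hcomplete : ∀ u ∈ A ∩ B, ∀ v ∈ A ∩ B, u ≠ v → F.Adj u v) : torso F A B = ind F A := by
  ext u v
  show (u ≠ v ∧ u ∈ A ∧ v ∈ A ∧ (F.Adj u v ∨ (u ∈ B ∧ v ∈ B))) ↔ (F.Adj u v ∧ u ∈ A ∧ v ∈ A)
  constructor
  · rintro ⟨h, hu, hv, h' | ⟨hu', hv'⟩⟩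
    · exact ⟨h', hu, hv⟩
    · exact ⟨hcomplete u ⟨hu, hu'⟩ v ⟨hv, hv'⟩ h, hu, hv⟩
  · rintro ⟨h, hu, hv⟩
    exact ⟨h.ne, hu, hv, Or.inl h⟩

end Pool.Agent.HomI
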