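import Pool.Agent.HomI.Def

/-!
# Small cuts and the classes of highly edge-connected vertices

`cd_sdiff` (posimodularity): with `w (A, B)` = number of edges between disjoint `A`, `B`, the difference of the
two sides is `2 w (C ∩ D, complement of C ∪ D)`. (`cd F S` is half the number of the ordered pairs `(x, y)`,
adjacent, with exactly one of `x`, `y` in `S`; for these indicators the inequality holds for every `(x, y)`.)

`exists_class`: `a ~ b` if every `S` with `a ∈ S`, `b ∉ S` has `l ≤ cd F S` is an equivalence relation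
(symmetric by `cd_compl`; transitive: `b ∈ S` or `b ∉ S`). Let `P` be a class. For every `v ∉ P` there is `C` with
`v ∈ C`, `C ∩ P = ∅`, `cd F C < l` (take a cut which separates `v` from one `p ∈ P`; if `C` contained another
`p' ∈ P`, then `p ≁ p'`). Among the finite families of sets `C` with `C ∩ P = ∅`, `cd F C < l`, with union the
complement of `P`, choose one with minimal `∑ |C|`. It is pairwise disjoint: if `C ≠ D` meet, then
`cd (C \ D) < l` or `cd (D \ C) < l` by `cd_sdiff`; replace `C` by `C \ D` (or `D` by `D \ C`): same union,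
smaller sum. So `∑ a ∈ P, g a i = 1 - ∑_C ∑ a ∈ C, g a i` does not depend on `i` (`hc`). The sum over all classes
`P` is `1`, so it is `1` for some class.
-/

set_option autoImplicit false

namespace Pool.Agent.HomI

open Finset Classical

variable {V : Type} [Fintype V]

private theorem cd_eq (F : SimpleGraph V) (S : Finset V) :
    cd F S = ∑ p : V × V, if F.Adj p.1 p.2 ∧ p.1 ∈ S ∧ p.2 ∉ S then 1 else 0 := by
  unfold cd
  rw [Finset.card_filter]

private theorem cd_eq' (F : SimpleGraph V) (S : Finset V) :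
    cd F S = ∑ p : V × V, if F.Adj p.1 p.2 ∧ p.2 ∈ S ∧ p.1 ∉ S then 1 else 0 := by
  rw [cd_eq, ← (Equiv.prodComm V V).sum_comp]
  refine Finset.sum_congr rfl fun p _ => ?_
  have h : (F.Adj ((Equiv.prodComm V V) p).1 ((Equiv.prodComm V V) p).2 ∧
      ((Equiv.prodComm V V) p).1 ∈ S ∧ ((Equiv.prodComm V V) p).2 ∉ S) ↔
      (F.Adj p.1 p.2 ∧ p.2 ∈ S ∧ p.1 ∉ S) := by
    change (F.Adj p.2 p.1 ∧ p.2 ∈ S ∧ p.1 ∉ S) ↔ _
    rw [F.adj_comm]
  by_cases h1 : F.Adj p.1 p.2 ∧ p.2 ∈ S ∧ p.1 ∉ S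
  · rw [if_pos h1, if_pos (h.mpr h1)]
  · rw [if_neg h1, if_neg (fun h2 => h1 (h.mp h2))]

theorem cd_compl (F : SimpleGraph V) (S : Finset V) : cd F Sᶜ = cd F S := by
  rw [cd_eq', cd_eq]
  refine Finset.sum_congr rfl fun p _ => ?_
  have h : (F.Adj p.1 p.2 ∧ p.2 ∈ Sᶜ ∧ p.1 ∉ Sᶜ) ↔ (F.Adj p.1 p.2 ∧ p.1 ∈ S ∧ p.2 ∉ S) := by
    rw [Finset.mem_compl, Finset.mem_compl, not_not]
    tauto
  by_cases h1 : F.Adj p.1 p.2 ∧ p.1 ∈ S ∧ p.2 ∉ S
  · rw [if_pos h1, if_pos (h.mpr h1)]
  · rw [if_neg h1, if_neg (fun h2 => h1 (h.mp h2))]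

theorem cd_sdiff (F : SimpleGraph V) (C D : Finset V) :
    cd F (C \ D) + cd F (D \ C) ≤ cd F C + cd F D := by
  have h2 : ∀ S : Finset V, 2 * cd F S = ∑ p : V × V,
      ((if F.Adj p.1 p.2 ∧ p.1 ∈ S ∧ p.2 ∉ S then 1 else 0) +
        if F.Adj p.1 p.2 ∧ p.2 ∈ S ∧ p.1 ∉ S then 1 else 0) := by
    intro S
    rw [Finset.sum_add_distrib, ← cd_eq, ← cd_eq', two_mul]
  have h3 : 2 * cd F (C \ D) + 2 * cd F (D \ C) ≤ 2 * cd F C + 2 * cd F D := by
    rw [h2, h2, h2, h2, ← Finset.sum_add_distrib, ← Finset.sum_add_distrib]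
    refine Finset.sum_le_sum fun p _ => ?_
    by_cases ha : F.Adj p.1 p.2
    · by_cases h1 : p.1 ∈ C <;> by_cases h2 : p.1 ∈ D <;> by_cases h3 : p.2 ∈ C <;>
        by_cases h4 : p.2 ∈ D <;> simp [ha, h1, h2, h3, h4]
    · simp [ha]
  omega

private def Rl (F : SimpleGraph V) (l : ℕ) (a b : V) : Prop :=
  ∀ S : Finset V, a ∈ S → b ∉ S → l ≤ cd F S

private theorem Rl_refl (F : SimpleGraph V) (l : ℕ) (a : V) : Rl F l a a :=
  fun _ h h' => absurd h h'

private theorem Rl_symm {F : SimpleGraph V} {l : ℕ} {a b : V} (h : Rl F l a b) : Rl F l b a := by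
  intro S hb ha
  rw [← cd_compl]
  exact h Sᶜ (Finset.mem_compl.mpr ha) (fun h => Finset.mem_compl.mp h hb)

private theorem Rl_trans {F : SimpleGraph V} {l : ℕ} {a b c : V} (h : Rl F l a b)
    (h' : Rl F l b c) : Rl F l a c := by
  intro S ha hc
  by_cases hb : b ∈ S
  · exact h' S hb hc
  · exact h S ha hb

private noncomputable def cls (F : SimpleGraph V) (l : ℕ) (a : V) : Finset V :=
  univ.filter fun b => Rl F l a b

private theorem mem_cls {F : SimpleGraph V} {l : ℕ} {a b : V} : b ∈ cls F l a ↔ Rl F l a b := by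
  unfold cls
  rw [Finset.mem_filter]
  exact ⟨fun h => h.2, fun h => ⟨Finset.mem_univ _, h⟩⟩

private theorem cls_eq {F : SimpleGraph V} {l : ℕ} {a b : V} :
    cls F l a = cls F l b ↔ Rl F l b a := by
  constructor
  · intro h
    rw [← mem_cls, ← h, mem_cls]
    exact Rl_refl F l a
  · intro h
    ext c
    rw [mem_cls, mem_cls]
    exact ⟨fun h1 => Rl_trans h h1, fun h1 => Rl_trans (Rl_symm h) h1⟩

private theorem cover_disj (F : SimpleGraph V) (l : ℕ) (a₀ : V) :
    ∃ K : Finset (Finset V), (∀ C ∈ K, cd F C < l) ∧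
      (∀ C ∈ K, ∀ D ∈ K, C ≠ D → Disjoint C D) ∧ K.biUnion id = (cls F l a₀)ᶜ := by
  set P := cls F l a₀ with hP
  set G : Finset (Finset V) → Prop := fun K =>
    (∀ C ∈ K, cd F C < l) ∧ K.biUnion id = Pᶜ with hG
  have hne : (univ.filter G).Nonempty := by
    refine ⟨univ.filter (fun C : Finset V => Disjoint C P ∧ cd F C < l), ?_⟩
    rw [Finset.mem_filter]
    refine ⟨Finset.mem_univ _, fun C hC => (Finset.mem_filter.mp hC).2.2, ?_⟩
    ext v
    rw [Finset.mem_biUnion, Finset.mem_compl]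
    constructor
    · rintro ⟨C, hC, hv⟩ hvP
      exact Finset.disjoint_left.mp (Finset.mem_filter.mp hC).2.1 hv hvP
    · intro hv
      have h1 : ¬ Rl F l v a₀ := fun h => hv (mem_cls.mpr (Rl_symm h))
      unfold Rl at h1
      push Not at h1
      obtain ⟨S, hvS, haS, hS⟩ := h1
      refine ⟨S, Finset.mem_filter.mpr ⟨Finset.mem_univ _, ?_, hS⟩, hvS⟩
      rw [Finset.disjoint_left]
      intro p hp hpP
      have h2 := Rl_symm (mem_cls.mp hpP) S hp haS
      omega
  obtain ⟨K, hK, hmin⟩ := Finset.exists_min_image (univ.filter G) (fun K => ∑ C ∈ K, C.card) hne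
  obtain ⟨hK1, hK2⟩ := (Finset.mem_filter.mp hK).2
  refine ⟨K, hK1, ?_, hK2⟩
  -- one of the two sets can be replaced
  have key : ∀ C ∈ K, ∀ D ∈ K, C ≠ D → ¬ Disjoint C D → cd F (C \ D) < l → False := by
    intro C hC D hD hCD hdis hcd
    have hD' : D ∈ K.erase C := Finset.mem_erase.mpr ⟨hCD.symm, hD⟩
    have h1 : insert (C \ D) (K.erase C) ∈ univ.filter G := by
      rw [Finset.mem_filter]
      refine ⟨Finset.mem_univ _, ?_, ?_⟩
      · intro E hE
        rcases Finset.mem_insert.mp hE with h | h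
        · rw [h]; exact hcd
        · exact hK1 E (Finset.mem_erase.mp h).2
      · rw [← hK2]
        ext v
        rw [Finset.mem_biUnion, Finset.mem_biUnion]
        constructor
        · rintro ⟨E, hE, hv⟩
          rcases Finset.mem_insert.mp hE with h | h
          · refine ⟨C, hC, ?_⟩
            rw [h] at hv
            exact (Finset.mem_sdiff.mp hv).1
          · exact ⟨E, (Finset.mem_erase.mp h).2, hv⟩
        · rintro ⟨E, hE, hv⟩
          by_cases hEC : E = C
          · by_cases hvD : v ∈ D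
            · exact ⟨D, Finset.mem_insert_of_mem hD', hvD⟩
            · refine ⟨C \ D, Finset.mem_insert_self _ _, ?_⟩
              rw [hEC] at hv
              exact Finset.mem_sdiff.mpr ⟨hv, hvD⟩
          · exact ⟨E, Finset.mem_insert_of_mem (Finset.mem_erase.mpr ⟨hEC, hE⟩), hv⟩
    have h2 := hmin _ h1
    have h3 : ∑ E ∈ insert (C \ D) (K.erase C), E.card ≤
        (C \ D).card + ∑ E ∈ K.erase C, E.card := by
      by_cases h : C \ D ∈ K.erase C
      · rw [Finset.insert_eq_of_mem h]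
        omega
      · rw [Finset.sum_insert h]
    have h4 : C.card + ∑ E ∈ K.erase C, E.card = ∑ E ∈ K, E.card :=
      Finset.add_sum_erase K (fun E => E.card) hC
    have h5 : (C \ D).card < C.card := by
      apply Finset.card_lt_card
      rw [Finset.ssubset_iff_subset_ne]
      refine ⟨Finset.sdiff_subset, fun h => hdis ?_⟩
      exact Finset.sdiff_eq_self_iff_disjoint.mp h
    have h2' : ∑ E ∈ K, E.card ≤ ∑ E ∈ insert (C \ D) (K.erase C), E.card := h2
    omega
  intro C hC D hD hCD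
  by_contra hdis
  have h1 := cd_sdiff F C D
  have h2 := hK1 C hC
  have h3 := hK1 D hD
  by_cases h4 : cd F (C \ D) < l
  · exact key C hC D hD hCD hdis h4
  · exact key D hD C hC hCD.symm (fun h => hdis h.symm) (by omega)

theorem exists_class {U : Type} [Nonempty U] (F : SimpleGraph V) (g : V → U → ZMod 2) (l : ℕ)
    (hc : ∀ S : Finset V, cd F S < l → ∀ i j, ∑ a ∈ S, g a i = ∑ a ∈ S, g a j)
    (ht : ∀ i, ∑ a, g a i = 1) :
    ∃ P : Finset V, (∀ a ∈ P, ∀ b ∈ P, ∀ S : Finset V, a ∈ S → b ∉ S → l ≤ cd F S) ∧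
      ∀ i, ∑ a ∈ P, g a i = 1 := by
  have hconst : ∀ a₀ : V, ∀ i j, ∑ a ∈ cls F l a₀, g a i = ∑ a ∈ cls F l a₀, g a j := by
    intro a₀ i j
    obtain ⟨K, hK1, hK2, hK3⟩ := cover_disj F l a₀
    have h1 : ∀ i, ∑ a ∈ (cls F l a₀)ᶜ, g a i = ∑ C ∈ K, ∑ a ∈ C, g a i := by
      intro i
      rw [← hK3, Finset.sum_biUnion]
      · rfl
      · intro C hC D hD hCD
        exact hK2 C hC D hD hCD
    have h2 : ∑ a ∈ (cls F l a₀)ᶜ, g a i = ∑ a ∈ (cls F l a₀)ᶜ, g a j := by
      rw [h1, h1]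
      exact Finset.sum_congr rfl fun C hC => hc C (hK1 C hC) i j
    have h3 := Finset.sum_add_sum_compl (cls F l a₀) (fun a => g a i)
    have h4 := Finset.sum_add_sum_compl (cls F l a₀) (fun a => g a j)
    rw [ht i] at h3
    rw [ht j, ← h2] at h4
    exact add_right_cancel (h3.trans h4.symm)
  by_contra hcon
  push Not at hcon
  have hzero : ∀ a₀ i, ∑ a ∈ cls F l a₀, g a i = 0 := by
    intro a₀ i
    obtain ⟨j, hj⟩ := hcon (cls F l a₀) (by
      intro a ha b hb
      exact Rl_trans (Rl_symm (mem_cls.mp ha)) (mem_cls.mp hb))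
    rw [hconst a₀ i j]
    have h : ∀ x : ZMod 2, x ≠ 1 → x = 0 := by decide
    exact h _ hj
  obtain ⟨i⟩ : Nonempty U := inferInstance
  have h1 := ht i
  rw [← Finset.sum_fiberwise_of_maps_to (s := univ) (t := univ.image (cls F l)) (g := cls F l)
    (fun a _ => Finset.mem_image_of_mem _ (Finset.mem_univ a)) (fun a => g a i)] at h1
  rw [Finset.sum_eq_zero] at h1
  · exact absurd h1 (by decide)
  · intro P hP
    obtain ⟨a₀, _, rfl⟩ := Finset.mem_image.mp hP
    have h2 : (univ.filter fun a => cls F l a = cls F l a₀) = cls F l a₀ := by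
      ext a
      rw [Finset.mem_filter, cls_eq, mem_cls]
      exact ⟨fun h => h.2, fun h => ⟨Finset.mem_univ _, h⟩⟩
    rw [h2]
    exact hzero a₀ i

end Pool.Agent.HomI
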