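import Mathlib

/-!
# Immersions of complete graphs
-/

set_option autoImplicit false

namespace Pool.Agent.HomI

open Finset Classical

/-- An immersion of the complete graph with `t` vertices in the graph `F`: `t` different vertices of
`F` and pairwise edge-disjoint paths of `F` between any two of them. -/
structure CliqueImm {V : Type} (t : ℕ) (F : SimpleGraph V) where
  /-- the branch vertices -/
  br : Fin t → V
  br_inj : Function.Injective br
  /-- the paths -/
  path : ∀ i j : Fin t, i < j → F.Path (br i) (br j)
  disj : ∀ (i j i' j' : Fin t) (h : i < j) (h' : i' < j'), (i, j) ≠ (i', j') →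
    ∀ e ∈ (path i j h).1.edges, e ∉ (path i' j' h').1.edges

/-- the number of edges of `F` between `S` and its complement -/
noncomputable def cd {V : Type} [Fintype V] (F : SimpleGraph V) (S : Finset V) : ℕ :=
  (univ.filter fun p : V × V => F.Adj p.1 p.2 ∧ p.1 ∈ S ∧ p.2 ∉ S).card

end Pool.Agent.HomI
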