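import Pool.Agent.HomI.Def

/-!
# A set of edges with odd degree exactly at `a` and `b` contains a path from `a` to `b`

Let `R` be the graph with edge set `J` and `C` the set of vertices reachable from `a` in `R`. The sum over `C` of
the degrees is even (every edge in `J` has both ends or no end in `C`), so the number of vertices of odd
degree in `C` is even; `a` is one of them, so `b ∈ C`. A walk of `R` from `a` to `b`, made a path, mapped to `F`.
-/

set_option autoImplicit false

namespace Pool.Agent.HomI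

open Finset Classical

variable {V : Type} [Fintype V]

/-- The degrees of a graph given by a set of edges. -/
theorem degree_fromEdgeSet (J : Finset (Sym2 V)) (hJ : ∀ e ∈ J, ¬ e.IsDiag) (v : V) :
    (SimpleGraph.fromEdgeSet (J : Set (Sym2 V))).degree v = (J.filter fun e => v ∈ e).card := by
  rw [← SimpleGraph.card_incidenceFinset_eq_degree]
  congr 1
  ext e
  rw [SimpleGraph.mem_incidenceFinset, mem_filter, SimpleGraph.incidenceSet,
    SimpleGraph.edgeSet_fromEdgeSet]
  constructor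
  · rintro ⟨⟨h1, -⟩, h2⟩
    exact ⟨h1, h2⟩
  · rintro ⟨h1, h2⟩
    exact ⟨⟨h1, hJ e h1⟩, h2⟩

theorem reachable_of_join (J : Finset (Sym2 V)) (hJ : ∀ e ∈ J, ¬ e.IsDiag) {a b : V}
    (hdeg : ∀ v, (Odd (J.filter fun e => v ∈ e).card ↔ (v = a ∨ v = b))) :
    (SimpleGraph.fromEdgeSet (J : Set (Sym2 V))).Reachable a b := by
  set R := SimpleGraph.fromEdgeSet (J : Set (Sym2 V)) with hR
  set J' := J.filter fun e => ∀ v ∈ e, R.Reachable a v with hJ'
  have hJ'2 : ∀ e ∈ J', ¬ e.IsDiag := fun e he => hJ e (mem_filter.1 he).1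
  have hsame : ∀ w, R.Reachable a w → (J'.filter fun e => w ∈ e) = J.filter fun e => w ∈ e := by
    intro w hw
    ext e
    rw [mem_filter, mem_filter, mem_filter]
    constructor
    · rintro ⟨⟨h1, -⟩, h2⟩
      exact ⟨h1, h2⟩
    · rintro ⟨h1, h2⟩
      refine ⟨⟨h1, fun v hv => ?_⟩, h2⟩
      by_cases hvw : v = w
      · rw [hvw]
        exact hw
      · refine hw.trans (SimpleGraph.Adj.reachable ?_)
        rw [hR, SimpleGraph.fromEdgeSet_adj]
        refine ⟨?_, fun h => hvw h.symm⟩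
        have h3 : e = s(w, v) := ((Sym2.mem_and_mem_iff (Ne.symm hvw)).1 ⟨h2, hv⟩)
        rw [← h3]
        exact h1
  have ha : Odd ((SimpleGraph.fromEdgeSet (J' : Set (Sym2 V))).degree a) := by
    rw [degree_fromEdgeSet J' hJ'2, hsame a (SimpleGraph.Reachable.refl a)]
    exact (hdeg a).2 (Or.inl rfl)
  obtain ⟨w, hwa, hw⟩ :=
    SimpleGraph.exists_ne_odd_degree_of_exists_odd_degree _ a ha
  rw [degree_fromEdgeSet J' hJ'2] at hw
  have hw1 : R.Reachable a w := by
    obtain ⟨e, he⟩ := card_pos.1 hw.pos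
    obtain ⟨h1, h2⟩ := mem_filter.1 he
    exact (mem_filter.1 h1).2 w h2
  rw [hsame w hw1, hdeg w] at hw
  rcases hw with hw | hw
  · exact (hwa hw).elim
  · rwa [← hw]

theorem path_of_join (F : SimpleGraph V) (J : Finset (Sym2 V)) (hJ : ∀ e ∈ J, e ∈ F.edgeSet)
    {a b : V} (hab : a ≠ b)
    (hdeg : ∀ v, (Odd (J.filter fun e => v ∈ e).card ↔ (v = a ∨ v = b))) :
    ∃ p : F.Path a b, ∀ e ∈ p.1.edges, e ∈ J := by
  have hJ2 : ∀ e ∈ J, ¬ e.IsDiag := fun e he => F.not_isDiag_of_mem_edgeSet (hJ e he)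
  obtain ⟨q⟩ := reachable_of_join J hJ2 hdeg
  have hle : SimpleGraph.fromEdgeSet (J : Set (Sym2 V)) ≤ F := by
    intro u v h
    rw [SimpleGraph.fromEdgeSet_adj] at h
    exact hJ _ h.1
  refine ⟨⟨q.toPath.1.mapLe hle, q.toPath.2.mapLe hle⟩, fun e he => ?_⟩
  have h1 : e ∈ q.toPath.1.edges := by simpa using he
  have h2 := q.toPath.1.edges_subset_edgeSet h1
  rw [SimpleGraph.edgeSet_fromEdgeSet] at h2
  exact h2.1

end Pool.Agent.HomI
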