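import Pool.Agent.HomI.Def
import Pool.Agent.HomV.HomX

/-!
# Cuts in a graph with a homological copy of `X`

`card_dl`: let `T` be the set where `r ≠ 0`; `dl X univ r e ≠ 0` for `e = s(i, j)` iff `X.Adj i j` and exactly one
of `i, j` is in `T`. Suppose there are less than `Q` such edges; let `S` be the set of their ends in `T`
(`|S| < Q`). If `T \ S` is not empty, `hG.conn S _ (T \ S)` gives an edge from `T \ S` to its complement in
`U \ S`, whose end in `T \ S` should be in `S`. So all vertices of `T` are ends of crossing edges, `|T| < Q`;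
a vertex `i ∈ T` has degree at least `Q` (`hG.deg`), at most `|T| - 1` neighbours in `T`: so there are at least
`|T| (Q - |T| + 1) ≥ Q` crossing edges.

`cut_const`: with `r i = ∑ a ∈ S, if f a = i then t a else 0`, `dl X univ r = ∑ a ∈ S, ∑ b, y a b =
∑ a ∈ S, ∑ b ∉ S, y a b` (`eqn`, `y_symm`; the labels inside `S` cancel modulo two; `y a a = 0` by `y_adj`). If
`dl X univ r e ≠ 0`, then `y a b e ≠ 0` for some `a ∈ S`, `b ∉ S`, adjacent in `F` (`y_adj`), and by `y_star` at `a`
and (`y_symm`) at `b`, and `f a ≠ f b` (`hf`), `e = s(f a, f b)`. So `e ↦ (a, b)` is injective, and the number of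
these `e` is at most `cd F S < Q`; by `card_dl` `r` is constant.
(See `homX_torso` in `HomV/Sum.lean` and `exists_homX` in `HomV/Cfi.lean` for the same computations.)
-/

set_option autoImplicit false

namespace Pool.Agent.HomI

open Finset Classical Pool.Agent.HomV

variable {U : Type} [Fintype U] {V : Type} [Fintype V] {X : SimpleGraph U} {Q : ℕ}

private theorem z2c (a : ZMod 2) : a = 0 ∨ a = 1 := by
  revert a; decide

private theorem z2_add_ne {a b : ZMod 2} : a + b ≠ 0 ↔ a ≠ b := by
  revert a b; decide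

theorem card_dl (hG : Good X univ Q) (r : U → ZMod 2) {i j : U} (hij : r i ≠ r j) :
    Q ≤ (univ.filter fun e : Sym2 U => dl X univ r e ≠ 0).card := by
  set E := univ.filter fun e : Sym2 U => dl X univ r e ≠ 0 with hE
  have hmem : ∀ a b : U, s(a, b) ∈ E ↔ X.Adj a b ∧ r a ≠ r b := by
    intro a b
    rw [hE, Finset.mem_filter, dl_mk]
    by_cases h : X.Adj a b
    · rw [if_pos ⟨h, Finset.mem_univ _, Finset.mem_univ _⟩, z2_add_ne]
      exact ⟨fun h1 => ⟨h, h1.2⟩, fun h1 => ⟨Finset.mem_univ _, h1.2⟩⟩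
    · rw [if_neg (fun h1 => h h1.1)]
      exact ⟨fun h1 => absurd rfl h1.2, fun h1 => absurd h1.1 h⟩
  by_contra hlt
  push Not at hlt
  -- a vertex in `T` and a vertex outside
  obtain ⟨i₀, j₀, hi₀, hj₀⟩ : ∃ i₀ j₀ : U, r i₀ ≠ 0 ∧ r j₀ = 0 := by
    rcases z2c (r i) with h1 | h1
    · refine ⟨j, i, ?_, h1⟩
      intro h2
      exact hij (h1.trans h2.symm)
    · rcases z2c (r j) with h2 | h2
      · refine ⟨i, j, ?_, h2⟩
        rw [h1]; decide
      · exact absurd (h1.trans h2.symm) hij
  set T := univ.filter fun a : U => r a ≠ 0 with hT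
  have hTm : ∀ a, a ∈ T ↔ r a ≠ 0 := fun a => by rw [hT, Finset.mem_filter]; simp
  set S := T.filter fun a => ∃ b, s(a, b) ∈ E with hS
  have hSE : S.card ≤ E.card := by
    have h1 : ∀ a ∈ S, ∃ b, s(a, b) ∈ E := fun a ha => (Finset.mem_filter.mp ha).2
    choose! g hg using h1
    refine Finset.card_le_card_of_injOn (fun a => s(a, g a)) (fun a ha => hg a ha) ?_
    intro a ha b hb hab
    have ha' := (hTm a).mp (Finset.mem_filter.mp ha).1
    have hb' := (hTm b).mp (Finset.mem_filter.mp hb).1
    have h2 := ((hmem _ _).mp (hg b hb)).2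
    rcases Sym2.eq_iff.mp hab with h | h
    · exact h.1
    · exfalso
      rw [← h.1] at h2
      apply h2
      rcases z2c (r a) with h3 | h3
      · exact absurd h3 ha'
      · rcases z2c (r b) with h4 | h4
        · exact absurd h4 hb'
        · rw [h3, h4]
  have hTS : T ⊆ S := by
    by_contra hcon
    have h1 : (T \ S).Nonempty := Finset.sdiff_nonempty.mpr hcon
    obtain ⟨a, ha, b, hb, hab⟩ := hG.conn S (hSE.trans_lt hlt) (T \ S)
      (Finset.sdiff_subset_sdiff (Finset.subset_univ _) (Finset.Subset.refl _)) h1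
      ⟨j₀, by
        rw [Finset.mem_sdiff, Finset.mem_sdiff, Finset.mem_sdiff]
        refine ⟨⟨Finset.mem_univ _, fun h => ?_⟩, fun h => ?_⟩
        · exact (hTm j₀).mp (Finset.mem_filter.mp h).1 hj₀
        · exact (hTm j₀).mp h.1 hj₀⟩
    rw [Finset.mem_sdiff] at ha
    rw [Finset.mem_sdiff, Finset.mem_sdiff, Finset.mem_sdiff] at hb
    have hbT : b ∉ T := fun h => hb.2 ⟨h, hb.1.2⟩
    have hb0 : r b = 0 := by
      by_contra h
      exact hbT ((hTm b).mpr h)
    apply ha.2
    rw [hS, Finset.mem_filter]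
    refine ⟨ha.1, b, (hmem _ _).mpr ⟨hab, ?_⟩⟩
    rw [hb0]
    exact (hTm a).mp ha.1
  have hTc : T.card < Q := ((Finset.card_le_card hTS).trans hSE).trans_lt hlt
  -- every vertex of `T` has a neighbour outside
  have hout : ∀ b ∈ T, ∃ c, c ∉ T ∧ X.Adj b c := by
    intro b _
    by_contra hcon
    push Not at hcon
    have h1 := hG.deg b (Finset.mem_univ _)
    have h2 : (univ.filter fun c => X.Adj b c) ⊆ T := by
      intro c hc
      by_contra h3
      exact hcon c h3 (Finset.mem_filter.mp hc).2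
    have h3 := Finset.card_le_card h2
    omega
  choose! g hg1 hg2 using hout
  have hi₀T : i₀ ∈ T := (hTm i₀).mpr hi₀
  have hfin : (univ.filter fun c => X.Adj i₀ c).card ≤ E.card := by
    refine Finset.card_le_card_of_injOn (fun b => if b ∈ T then s(b, g b) else s(i₀, b)) ?_ ?_
    · intro b hb
      have hb' : X.Adj i₀ b := (Finset.mem_filter.mp hb).2
      simp only
      split_ifs with h
      · refine (hmem _ _).mpr ⟨hg2 b h, ?_⟩
        intro h1
        exact hg1 b h ((hTm _).mpr (h1 ▸ (hTm b).mp h))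
      · refine (hmem _ _).mpr ⟨hb', ?_⟩
        intro h1
        exact h ((hTm _).mpr (h1 ▸ hi₀))
    · intro b hb c hc hbc
      have hb' : X.Adj i₀ b := (Finset.mem_filter.mp hb).2
      have hc' : X.Adj i₀ c := (Finset.mem_filter.mp hc).2
      simp only at hbc
      split_ifs at hbc with h1 h2 h2
      · rcases Sym2.eq_iff.mp hbc with h | h
        · exact h.1
        · exact absurd (h.1 ▸ h1) (hg1 c h2)
      · rcases Sym2.eq_iff.mp hbc with h | h
        · exact absurd h.1.symm hb'.ne
        · exact absurd (h.1 ▸ h1) h2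
      · rcases Sym2.eq_iff.mp hbc with h | h
        · exact absurd h.1 hc'.ne
        · exact absurd (h.2 ▸ h2) h1
      · rcases Sym2.eq_iff.mp hbc with h | h
        · exact h.2
        · exact absurd h.1 hc'.ne
  have hdeg := hG.deg i₀ (Finset.mem_univ _)
  omega

/-- the labels inside a set cancel -/
private theorem sum_sym_zero (s : Finset V) (y : V → V → Ch U) (hs : ∀ a b, y a b = y b a)
    (h0 : ∀ a, y a a = 0) : ∑ a ∈ s, ∑ b ∈ s, y a b = 0 := by
  induction s using Finset.induction_on with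
  | empty => simp
  | insert a s ha ih =>
    rw [Finset.sum_insert ha, Finset.sum_insert ha, h0, zero_add]
    have h1 : ∀ x ∈ s, ∑ b ∈ insert a s, y x b = y a x + ∑ b ∈ s, y x b := by
      intro x _
      rw [Finset.sum_insert ha, hs]
    rw [Finset.sum_congr rfl h1, Finset.sum_add_distrib, ih, add_zero, ch_add_self]

/-- a weighted sum of stars is a cut -/
private theorem dl_push (f : V → U) (s : Finset V) (t : V → ZMod 2) :
    dl X univ (fun i => ∑ a ∈ s, if f a = i then t a else 0) =
      ∑ a ∈ s, t a • star X univ (f a) := by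
  funext e
  unfold dl
  rw [Finset.sum_apply]
  have h1 : ∀ i : U, (∑ a ∈ s, if f a = i then t a else 0) * star X univ i e =
      ∑ a ∈ s, if f a = i then t a * star X univ (f a) e else 0 := by
    intro i
    rw [Finset.sum_mul]
    refine Finset.sum_congr rfl fun a _ => ?_
    by_cases h : f a = i
    · rw [if_pos h, if_pos h, h]
    · rw [if_neg h, if_neg h, zero_mul]
  rw [Finset.sum_congr rfl fun i _ => h1 i, Finset.sum_comm]
  refine Finset.sum_congr rfl fun a _ => ?_
  rw [Finset.sum_ite_eq Finset.univ (f a), if_pos (Finset.mem_univ _)]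
  rfl

theorem cut_const (hG : Good X univ Q) {F : SimpleGraph V} (H : HomX X univ F)
    (hf : ∀ a b, F.Adj a b → X.Adj (H.f a) (H.f b)) (S : Finset V) (hS : cd F S < Q) (i j : U) :
    ∑ a ∈ S, (if H.f a = i then H.t a else 0) = ∑ a ∈ S, (if H.f a = j then H.t a else 0) := by
  by_contra hne
  have h1 := card_dl hG (fun i => ∑ a ∈ S, if H.f a = i then H.t a else 0) hne
  have h2 : dl X univ (fun i => ∑ a ∈ S, if H.f a = i then H.t a else 0) =
      ∑ a ∈ S, ∑ b ∈ Sᶜ, H.y a b := by
    rw [dl_push]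
    have h3 : ∀ a ∈ S, H.t a • star X univ (H.f a) =
        ∑ b ∈ S, H.y a b + ∑ b ∈ Sᶜ, H.y a b := by
      intro a _
      rw [← H.eqn a, Finset.sum_add_sum_compl]
    rw [Finset.sum_congr rfl h3, Finset.sum_add_distrib, sum_sym_zero _ H.y H.y_symm, zero_add]
    intro a
    by_contra h
    exact F.loopless.irrefl a (H.y_adj a a h)
  have h3 : (univ.filter fun e : Sym2 U =>
      dl X univ (fun i => ∑ a ∈ S, if H.f a = i then H.t a else 0) e ≠ 0).card ≤ cd F S := by
    unfold cd
    refine (Finset.card_le_card ?_).trans (Finset.card_image_le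
      (s := univ.filter fun p : V × V => F.Adj p.1 p.2 ∧ p.1 ∈ S ∧ p.2 ∉ S)
      (f := fun p : V × V => s(H.f p.1, H.f p.2)))
    intro e he
    have he' := (Finset.mem_filter.mp he).2
    rw [h2, Finset.sum_apply] at he'
    obtain ⟨a, ha, h4⟩ := Finset.exists_ne_zero_of_sum_ne_zero he'
    rw [Finset.sum_apply] at h4
    obtain ⟨b, hb, h5⟩ := Finset.exists_ne_zero_of_sum_ne_zero h4
    have h6 : H.y a b ≠ 0 := fun h => h5 (by rw [h]; rfl)
    have hab := H.y_adj a b h6
    have hX := hf a b hab
    rw [Finset.mem_image]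
    refine ⟨(a, b), Finset.mem_filter.mpr ⟨Finset.mem_univ _, hab, ha, Finset.mem_compl.mp hb⟩, ?_⟩
    have h7 := (H.y_star a b).mem e h5
    have h8 := (H.y_star b a).mem e (by rw [← H.y_symm a b]; exact h5)
    exact ((Sym2.mem_and_mem_iff hX.ne).mp ⟨h7, h8⟩).symm
  omega

end Pool.Agent.HomI
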