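import Pool.Agent.HomI.MenA
import Pool.Agent.HomI.Join

/-!
# Many vertices which are not separated by small cuts give an immersion of a complete graph

`t = 0`, `t = 1`: trivial. `t = m + 1`: choose `h` and `v i`, `i : Fin m`, different, in `P`; `K` from `exists_joins`.
Branch vertices `h = br 0`, `v i = br i.succ`. Between `h` and `v i`: `K i i`. Between `v i` and `v j`, `i < j`:
`K i j ∪ K j i` (disjoint; odd degree exactly at `v i` and `v j`). `path_of_join`. All these sets are disjoint.
-/

set_option autoImplicit false

namespace Pool.Agent.HomI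

open Finset Classical

variable {V : Type} [Fintype V]

theorem cliqueImm_of_class (F : SimpleGraph V) (t : ℕ) (P : Finset V) (hP : t ≤ P.card)
    (hc : ∀ a ∈ P, ∀ b ∈ P, ∀ S : Finset V, a ∈ S → b ∉ S → (t - 1) ^ 2 ≤ cd F S) :
    Nonempty (CliqueImm t F) := by
  rcases t with _ | m
  · exact ⟨⟨fun i => i.elim0, fun i => i.elim0, fun i => i.elim0, fun i => i.elim0⟩⟩
  · have hbr : ∃ br : Fin (m + 1) → V, Function.Injective br ∧ ∀ i, br i ∈ P := by
      refine ⟨fun i => (P.equivFin.symm (Fin.castLE hP i) : V), ?_, fun i => (P.equivFin.symm _).2⟩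
      exact Subtype.val_injective.comp (P.equivFin.symm.injective.comp (Fin.castLE_injective hP))
    obtain ⟨br, hbr1, hbr2⟩ := hbr
    obtain ⟨K, hK1, hK2, hK3⟩ := exists_joins F m (br 0) (fun i => br i.succ)
      (fun i j hij => Fin.succ_injective _ (hbr1 hij)) (fun i hi => Fin.succ_ne_zero i (hbr1 hi))
      (by
        rintro S ⟨i, hi⟩ hS
        exact hc _ (hbr2 _) _ (hbr2 _) S hi hS)
    set lab : Fin m → Fin m → Fin (m + 1) × Fin (m + 1) := fun a b =>
      if a = b then (0, a.succ) else if a < b then (a.succ, b.succ) else (b.succ, a.succ) with hlab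
    have key : ∀ i j : Fin (m + 1), i < j →
        ∃ p : F.Path (br i) (br j), ∀ e ∈ p.1.edges, ∃ a b, e ∈ K a b ∧ lab a b = (i, j) := by
      intro i j hij
      have hne : br i ≠ br j := fun h => hij.ne (hbr1 h)
      induction i using Fin.cases with
      | zero =>
        induction j using Fin.cases with
        | zero => exact absurd hij (lt_irrefl _)
        | succ j =>
          obtain ⟨p, hp⟩ := path_of_join F (K j j) (hK1 j j) hne
            (fun w => (hK3 j j w).trans or_comm)
          exact ⟨p, fun e he => ⟨j, j, hp e he, if_pos rfl⟩⟩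
      | succ i =>
        induction j using Fin.cases with
        | zero => exact absurd hij (Fin.not_lt_zero _)
        | succ j =>
          have hij' : i < j := Fin.succ_lt_succ_iff.mp hij
          have hdis : Disjoint (K i j) (K j i) :=
            hK2 i j j i fun h => hij'.ne (congrArg Prod.fst h)
          have h0i : br 0 ≠ br i.succ := fun h => Fin.succ_ne_zero i (hbr1 h).symm
          have h0j : br 0 ≠ br j.succ := fun h => Fin.succ_ne_zero j (hbr1 h).symm
          obtain ⟨p, hp⟩ := path_of_join F (K i j ∪ K j i)
            (fun e he => (mem_union.1 he).elim (hK1 i j e) (hK1 j i e)) hne (fun w => by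
              rw [filter_union, card_union_of_disjoint (disjoint_filter_filter hdis), Nat.odd_add,
                ← Nat.not_odd_iff_even, hK3 i j w, hK3 j i w]
              by_cases h1 : w = br 0
              · subst h1
                simp [h0i, h0j]
              · by_cases h2 : w = br i.succ
                · subst h2
                  simp [hne, h1]
                · simp [h1, h2])
          refine ⟨p, fun e he => ?_⟩
          rcases mem_union.1 (hp e he) with h | h
          · exact ⟨i, j, h, by rw [hlab]; simp only; rw [if_neg hij'.ne, if_pos hij']⟩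
          · exact ⟨j, i, h, by rw [hlab]; simp only; rw [if_neg hij'.ne', if_neg hij'.not_gt]⟩
    choose p hp using key
    refine ⟨⟨br, hbr1, p, ?_⟩⟩
    intro i j i' j' h h' hne e he he'
    obtain ⟨a, b, hab, hl⟩ := hp i j h e he
    obtain ⟨a', b', hab', hl'⟩ := hp i' j' h' e he'
    by_cases hcase : (a, b) = (a', b')
    · obtain ⟨rfl, rfl⟩ := Prod.mk.inj hcase
      exact hne (hl.symm.trans hl')
    · exact (disjoint_left.1 (hK2 a b a' b' hcase)) hab hab'

end Pool.Agent.HomI
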