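import Pool.Agent.HomV.Sum

/-!
# Clique sums, with the same fibre map

The same as `homX_torso` in `HomV/Sum.lean`, with the information that the fibre map does not
change.
-/

set_option autoImplicit false

namespace Pool.Agent.HomI

open Finset Classical Pool.Agent.HomV

variable {U : Type} [Fintype U] {V : Type} [Fintype V] {X : SimpleGraph U} {Y : Finset U} {Q k : ℕ}

private theorem z2c (a : ZMod 2) : a = 0 ∨ a = 1 := by
  revert a; decide

private theorem z2n {a : ZMod 2} (h : a ≠ 0) : a = 1 := (z2c a).resolve_left h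

private theorem z2_self (a : ZMod 2) : a + a = 0 := CharTwo.add_self_eq_zero a

/-- pairs with prescribed degrees modulo `2` -/
private theorem exists_pairs (d : V → ZMod 2) (hd : ∑ a, d a = 0) :
    ∃ z : V → V → ZMod 2, (∀ a b, z a b = z b a) ∧
      (∀ a b, z a b ≠ 0 → a ≠ b ∧ d a ≠ 0 ∧ d b ≠ 0) ∧ ∀ a, ∑ b, z a b = d a := by
  by_cases h : ∀ a, d a = 0
  · refine ⟨fun _ _ => 0, fun _ _ => rfl, fun a b h => absurd rfl h, fun a => ?_⟩
    rw [h a, Finset.sum_const_zero]
  · push Not at h
    obtain ⟨a₀, ha₀⟩ := h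
    refine ⟨fun a b => if a ≠ b ∧ d a ≠ 0 ∧ d b ≠ 0 ∧ (a = a₀ ∨ b = a₀) then 1 else 0, ?_, ?_, ?_⟩
    · intro a b
      have h1 : (a ≠ b ∧ d a ≠ 0 ∧ d b ≠ 0 ∧ (a = a₀ ∨ b = a₀)) ↔
          (b ≠ a ∧ d b ≠ 0 ∧ d a ≠ 0 ∧ (b = a₀ ∨ a = a₀)) := by
        constructor
        · rintro ⟨h1, h2, h3, h4⟩
          exact ⟨h1.symm, h3, h2, h4.symm⟩
        · rintro ⟨h1, h2, h3, h4⟩
          exact ⟨h1.symm, h3, h2, h4.symm⟩
      simp only [h1]
    · intro a b hab
      by_contra hcon
      apply hab
      refine if_neg ?_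
      rintro ⟨h1, h2, h3, -⟩
      exact hcon ⟨h1, h2, h3⟩
    · intro a
      by_cases ha : d a = 0
      · rw [ha]
        refine Finset.sum_eq_zero fun b _ => if_neg ?_
        rintro ⟨-, h2, -⟩
        exact h2 ha
      by_cases haa : a = a₀
      · subst haa
        have h1 : ∀ b, (if a ≠ b ∧ d a ≠ 0 ∧ d b ≠ 0 ∧ (a = a ∨ b = a) then (1 : ZMod 2) else 0) =
            d b + if b = a then d a else 0 := by
          intro b
          by_cases hb : b = a
          · subst hb
            rw [if_pos rfl, if_neg (fun h => h.1 rfl), z2_self]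
          · rw [if_neg hb, add_zero]
            rcases z2c (d b) with h2 | h2
            · rw [if_neg (fun h => h.2.2.1 h2), h2]
            · rw [if_pos ⟨fun h => hb h.symm, ha, by rw [h2]; decide, Or.inl rfl⟩, h2]
        rw [Finset.sum_congr rfl fun b _ => h1 b, Finset.sum_add_distrib, hd, zero_add,
          Finset.sum_ite_eq' Finset.univ a, if_pos (Finset.mem_univ _)]
      · rw [Finset.sum_eq_single a₀]
        · rw [z2n ha]
          exact if_pos ⟨haa, ha, ha₀, Or.inr rfl⟩
        · intro b _ hb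
          refine if_neg ?_
          rintro ⟨-, -, -, h4 | h4⟩
          · exact haa h4
          · exact hb h4
        · intro h; exact absurd (Finset.mem_univ _) h

/-- symmetric labels with prescribed sums -/
private theorem exists_labels (D : V → Ch U) (hD : ∑ a, D a = 0) :
    ∃ z : V → V → Ch U, (∀ a b, z a b = z b a) ∧
      (∀ a b e, z a b e ≠ 0 → a ≠ b ∧ D a e ≠ 0 ∧ D b e ≠ 0) ∧ ∀ a, ∑ b, z a b = D a := by
  have h1 : ∀ e : Sym2 U, ∃ z : V → V → ZMod 2, (∀ a b, z a b = z b a) ∧
      (∀ a b, z a b ≠ 0 → a ≠ b ∧ D a e ≠ 0 ∧ D b e ≠ 0) ∧ ∀ a, ∑ b, z a b = D a e := by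
    intro e
    refine exists_pairs (fun a => D a e) ?_
    have h2 := congrFun hD e
    rw [Finset.sum_apply] at h2
    exact h2
  choose z hz1 hz2 hz3 using h1
  refine ⟨fun a b e => z e a b, ?_, ?_, ?_⟩
  · intro a b
    funext e
    exact hz1 e a b
  · intro a b e h
    exact hz2 e a b h
  · intro a
    funext e
    rw [Finset.sum_apply]
    exact hz3 e a

private theorem inStar_sum {ι : Type} (s : Finset ι) (i : U) (K : ι → Ch U)
    (h : ∀ a ∈ s, InStar X Y i (K a)) : InStar X Y i (∑ a ∈ s, K a) := by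
  induction s using Finset.induction_on with
  | empty =>
    intro e he
    exact absurd rfl he
  | insert a s ha ih =>
    rw [Finset.sum_insert ha]
    exact (h a (Finset.mem_insert_self _ _)).add
      (ih (fun b hb => h b (Finset.mem_insert_of_mem hb)))

private theorem inStar_smul (i : U) (c : ZMod 2) : InStar X Y i (c • star X Y i) := by
  intro e he h
  apply he
  rw [Pi.smul_apply, h, smul_zero]

/-- a weighted sum of stars is a cut -/
private theorem dl_push (f : V → U) (s : Finset V) (t : V → ZMod 2) :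
    dl X Y (fun i => ∑ a ∈ s.filter (fun a => f a = i), t a) =
      ∑ a ∈ s, t a • star X Y (f a) := by
  funext e
  unfold dl
  rw [Finset.sum_apply]
  have h1 : ∀ i : U, (∑ a ∈ s.filter (fun a => f a = i), t a) * star X Y i e =
      ∑ a ∈ s, if f a = i then t a * star X Y (f a) e else 0 := by
    intro i
    rw [Finset.sum_mul, Finset.sum_filter]
    refine Finset.sum_congr rfl fun a _ => ?_
    by_cases h : f a = i
    · rw [if_pos h, if_pos h, h]
    · rw [if_neg h, if_neg h]
  rw [Finset.sum_congr rfl fun i _ => h1 i, Finset.sum_comm]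
  refine Finset.sum_congr rfl fun a _ => ?_
  rw [Finset.sum_ite_eq Finset.univ (f a), if_pos (Finset.mem_univ _)]
  rfl

/-- the labels inside a set cancel -/
private theorem sum_sym_zero (s : Finset V) (y : V → V → Ch U) (hs : ∀ a b, y a b = y b a)
    (h0 : ∀ a, y a a = 0) : ∑ a ∈ s, ∑ b ∈ s, y a b = 0 := by
  induction s using Finset.induction_on with
  | empty => simp
  | insert a s ha ih =>
    rw [Finset.sum_insert ha, Finset.sum_insert ha, h0, zero_add]
    have h1 : ∀ x ∈ s, ∑ b ∈ insert a s, y x b = y a x + ∑ b ∈ s, y x b := by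
      intro x _
      rw [Finset.sum_insert ha, hs]
    rw [Finset.sum_congr rfl h1, Finset.sum_add_distrib, ih, add_zero, ch_add_self]

section

variable {F : SimpleGraph V} (H : HomX X Y F) (A B : Set V)

private noncomputable def fP : Finset V := univ.filter (fun a => a ∈ A ∧ a ∈ B)

private noncomputable def fB : Finset V := univ.filter (fun a => a ∈ B ∧ a ∉ A)

/-- the parity of the odd vertices of the fibres in `B \ A` -/
private noncomputable def rB (i : U) : ZMod 2 := ∑ a ∈ (fB A B).filter (fun a => H.f a = i), H.t a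

private theorem fP_comm : fP A B = fP B A := by
  unfold fP
  ext a
  simp only [Finset.mem_filter]
  tauto

private theorem disj_BP : Disjoint (fB A B) (fP A B) := by
  rw [Finset.disjoint_left]
  intro a h1 h2
  exact (Finset.mem_filter.mp h1).2.2 (Finset.mem_filter.mp h2).2.1

private theorem y_zero_B (hadj : ∀ u v, F.Adj u v → (u ∈ A ∧ v ∈ A) ∨ (u ∈ B ∧ v ∈ B)) {a b : V}
    (ha : a ∈ fB A B) (hb : b ∉ fB A B ∪ fP A B) : H.y a b = 0 := by
  by_contra h
  have h1 := H.y_adj a b h
  have h2 := (Finset.mem_filter.mp ha).2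
  apply hb
  rw [Finset.mem_union]
  rcases hadj a b h1 with h3 | h3
  · exact absurd h3.1 h2.2
  · by_cases h4 : b ∈ A
    · exact Or.inr (Finset.mem_filter.mpr ⟨Finset.mem_univ _, h4, h3.2⟩)
    · exact Or.inl (Finset.mem_filter.mpr ⟨Finset.mem_univ _, h3.2, h4⟩)

/-- the cut of `rB` -/
private theorem dl_rB (hadj : ∀ u v, F.Adj u v → (u ∈ A ∧ v ∈ A) ∨ (u ∈ B ∧ v ∈ B)) :
    dl X Y (rB H A B) = ∑ b ∈ fP A B, ∑ a ∈ fB A B, H.y b a := by
  have h1 : dl X Y (rB H A B) = ∑ a ∈ fB A B, H.t a • star X Y (H.f a) :=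
    dl_push H.f (fB A B) H.t
  have h2 : ∀ a ∈ fB A B, H.t a • star X Y (H.f a) =
      ∑ b ∈ fB A B, H.y a b + ∑ b ∈ fP A B, H.y a b := by
    intro a ha
    rw [← H.eqn a, ← Finset.sum_union (disj_BP A B)]
    symm
    refine Finset.sum_subset (Finset.subset_univ _) fun b _ hb => ?_
    exact y_zero_B H A B hadj ha hb
  rw [h1, Finset.sum_congr rfl h2, Finset.sum_add_distrib,
    sum_sym_zero _ H.y H.y_symm, zero_add, Finset.sum_comm]
  · refine Finset.sum_congr rfl fun b _ => Finset.sum_congr rfl fun a _ => ?_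
    exact H.y_symm a b
  · intro a
    by_contra h
    exact F.loopless.irrefl a (H.y_adj a a h)

private theorem card_image (hcard : (A ∩ B).ncard ≤ k) : ((fP A B).image H.f).card ≤ k := by
  refine Finset.card_image_le.trans ?_
  have h1 : A ∩ B = ((fP A B : Finset V) : Set V) := by
    ext a
    simp [fP]
  rw [h1, Set.ncard_coe_finset] at hcard
  exact hcard

/-- `rB` is constant outside of the fibres of `A ∩ B` -/
private theorem rB_const (hG : Good X Y Q) (hk : k < Q)
    (hadj : ∀ u v, F.Adj u v → (u ∈ A ∧ v ∈ A) ∨ (u ∈ B ∧ v ∈ B)) (hcard : (A ∩ B).ncard ≤ k) :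
    ∀ i ∈ Y \ (fP A B).image H.f, ∀ j ∈ Y \ (fP A B).image H.f, rB H A B i = rB H A B j := by
  set S := (fP A B).image H.f with hS
  have hSc : S.card < Q := lt_of_le_of_lt (card_image H A B hcard) hk
  have key : ∀ i ∈ Y \ S, ∀ j ∈ Y \ S, rB H A B i ≠ 0 → rB H A B j = 0 → False := by
    intro i hi j hj h1 h2
    obtain ⟨a, ha, b, hb, hab⟩ := hG.conn S hSc ((Y \ S).filter (fun i => rB H A B i ≠ 0))
      (Finset.filter_subset _ _) ⟨i, Finset.mem_filter.mpr ⟨hi, h1⟩⟩
      ⟨j, Finset.mem_sdiff.mpr ⟨hj, fun h => (Finset.mem_filter.mp h).2 h2⟩⟩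
    rw [Finset.mem_filter, Finset.mem_sdiff] at ha
    rw [Finset.mem_sdiff, Finset.mem_filter, Finset.mem_sdiff] at hb
    have hb0 : rB H A B b = 0 := by
      by_contra h3
      exact hb.2 ⟨hb.1, h3⟩
    have h3 := congrFun (dl_rB H A B hadj) s(a, b)
    rw [dl_mk, if_pos ⟨hab, ha.1.1, hb.1.1⟩, hb0, add_zero] at h3
    have h4 : (∑ b ∈ fP A B, ∑ a ∈ fB A B, H.y b a) s(a, b) ≠ 0 := by
      rw [← h3]; exact ha.2
    rw [Finset.sum_apply] at h4
    obtain ⟨c, hc, h5⟩ := Finset.exists_ne_zero_of_sum_ne_zero h4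
    have h6 : InStar X Y (H.f c) (∑ a ∈ fB A B, H.y c a) :=
      inStar_sum _ _ _ (fun a _ => H.y_star c a)
    have h7 := h6.mem _ h5
    rw [Sym2.mem_iff] at h7
    rcases h7 with h7 | h7
    · exact ha.1.2 (h7 ▸ Finset.mem_image_of_mem _ hc)
    · exact hb.1.2 (h7 ▸ Finset.mem_image_of_mem _ hc)
  intro i hi j hj
  rcases z2c (rB H A B i) with h1 | h1 <;> rcases z2c (rB H A B j) with h2 | h2
  · rw [h1, h2]
  · exact (key j hj i hi (by rw [h2]; decide) h1).elim
  · exact (key i hi j hj (by rw [h1]; decide) h2).elim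
  · rw [h1, h2]

/-- the main case -/
private theorem core (hAB : A ∪ B = Set.univ)
    (hadj : ∀ u v, F.Adj u v → (u ∈ A ∧ v ∈ A) ∨ (u ∈ B ∧ v ∈ B))
    (hr : ∀ i ∈ Y \ (fP A B).image H.f, rB H A B i = 0) :
    ∃ H' : HomX X Y (torso F A B), H'.f = H.f := by
  -- representatives of the fibres of `A ∩ B`
  have hrep : ∀ i : U, ∃ p : V → Prop, (∀ a, p a → a ∈ fP A B ∧ H.f a = i) ∧
      (∀ a b, p a → p b → a = b) ∧ (i ∈ (fP A B).image H.f → ∃ a, p a) := by
    intro i
    by_cases h : i ∈ (fP A B).image H.f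
    · obtain ⟨a, ha, hfa⟩ := Finset.mem_image.mp h
      exact ⟨fun b => b = a, fun b hb => hb ▸ ⟨ha, hfa⟩, fun b c hb hc => hb.trans hc.symm,
        fun _ => ⟨a, rfl⟩⟩
    · exact ⟨fun _ => False, fun _ h => h.elim, fun _ _ h => h.elim, fun h' => absurd h' h⟩
  choose p hp1 hp2 hp3 using hrep
  let corr : V → ZMod 2 := fun a => if p (H.f a) a then rB H A B (H.f a) else 0
  have hcorr0 : ∀ a, a ∉ fP A B → corr a = 0 := by
    intro a ha
    change (if p (H.f a) a then rB H A B (H.f a) else 0) = 0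
    rw [if_neg (fun h => ha (hp1 _ _ h).1)]
  have hcorrsum : ∀ i ∈ Y, ∑ a ∈ (fP A B).filter (fun a => H.f a = i), corr a = rB H A B i := by
    intro i hi
    by_cases h : i ∈ (fP A B).image H.f
    · obtain ⟨a, ha⟩ := hp3 i h
      have ha' := hp1 i a ha
      rw [Finset.sum_eq_single a]
      · change (if p (H.f a) a then rB H A B (H.f a) else 0) = _
        rw [ha'.2, if_pos ha]
      · intro b hb hba
        have hb' := (Finset.mem_filter.mp hb).2
        change (if p (H.f b) b then rB H A B (H.f b) else 0) = 0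
        rw [hb', if_neg (fun h => hba (hp2 i b a h ha))]
      · intro h'
        exact absurd (Finset.mem_filter.mpr ⟨ha'.1, ha'.2⟩) h'
    · rw [hr i (Finset.mem_sdiff.mpr ⟨hi, h⟩)]
      refine Finset.sum_eq_zero fun a ha => ?_
      have ha' := Finset.mem_filter.mp ha
      exact absurd (ha'.2 ▸ Finset.mem_image_of_mem H.f ha'.1) h
  -- the defects
  let D : V → Ch U := fun a => if a ∈ fP A B then
    corr a • star X Y (H.f a) + ∑ b ∈ fB A B, H.y a b else 0
  have hDsum : ∑ a, D a = 0 := by
    have h1 : ∑ a, D a = ∑ a ∈ fP A B, (corr a • star X Y (H.f a) + ∑ b ∈ fB A B, H.y a b) := by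
      rw [← Finset.sum_filter_add_sum_filter_not Finset.univ (fun a => a ∈ fP A B) D]
      have h2 : ∑ a ∈ univ.filter (fun a => ¬ a ∈ fP A B), D a = 0 :=
        Finset.sum_eq_zero fun a ha => if_neg (Finset.mem_filter.mp ha).2
      rw [h2, add_zero]
      have h3 : univ.filter (fun a => a ∈ fP A B) = fP A B := by
        ext a; simp
      rw [h3]
      exact Finset.sum_congr rfl fun a ha => if_pos ha
    rw [h1, Finset.sum_add_distrib, ← dl_rB H A B hadj, ← dl_push H.f (fP A B) corr, ← dl_add,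
      ← dl_zero (X := X) (Y := Y)]
    refine dl_congr fun i hi => ?_
    rw [Pi.add_apply, hcorrsum i hi, z2_self]
    rfl
  have hDstar : ∀ a, InStar X Y (H.f a) (D a) := by
    intro a
    by_cases ha : a ∈ fP A B
    · change InStar X Y (H.f a) (if a ∈ fP A B then
        corr a • star X Y (H.f a) + ∑ b ∈ fB A B, H.y a b else 0)
      rw [if_pos ha]
      exact (inStar_smul _ _).add (inStar_sum _ _ _ (fun b _ => H.y_star a b))
    · change InStar X Y (H.f a) (if a ∈ fP A B then
        corr a • star X Y (H.f a) + ∑ b ∈ fB A B, H.y a b else 0)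
      rw [if_neg ha]
      intro e he
      exact absurd rfl he
  have hDP : ∀ a e, D a e ≠ 0 → a ∈ fP A B := by
    intro a e h
    by_contra h1
    apply h
    change (if a ∈ fP A B then
        corr a • star X Y (H.f a) + ∑ b ∈ fB A B, H.y a b else 0 : Ch U) e = 0
    rw [if_neg h1]
    rfl
  obtain ⟨z, hz1, hz2, hz3⟩ := exists_labels D hDsum
  have hzP : ∀ a b, z a b ≠ 0 → a ≠ b ∧ a ∈ fP A B ∧ b ∈ fP A B := by
    intro a b h
    obtain ⟨e, he⟩ := Function.ne_iff.mp h
    have h1 := hz2 a b e he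
    exact ⟨h1.1, hDP a e h1.2.1, hDP b e h1.2.2⟩
  have hPA : ∀ a, a ∈ fP A B → a ∈ A := fun a ha => (Finset.mem_filter.mp ha).2.1
  have hPB : ∀ a, a ∈ fP A B → a ∈ B := fun a ha => (Finset.mem_filter.mp ha).2.2
  have hsplit : ∀ a, a ∉ A → a ∈ fB A B := by
    intro a ha
    have h1 : a ∈ A ∪ B := by rw [hAB]; trivial
    rcases h1 with h1 | h1
    · exact absurd h1 ha
    · exact Finset.mem_filter.mpr ⟨Finset.mem_univ _, h1, ha⟩
  have hBA : ∀ a, a ∈ fB A B ↔ ¬ a ∈ A := fun a =>
    ⟨fun h => (Finset.mem_filter.mp h).2.2, hsplit a⟩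
  refine ⟨{ f := H.f
            t := fun a => if a ∈ A then H.t a + corr a else 0
            y := fun a b => if a ∈ A ∧ b ∈ A then H.y a b + z a b else 0
            y_symm := ?_, y_adj := ?_, y_star := ?_, eqn := ?_, total := ?_ }, rfl⟩
  · intro a b
    by_cases h : a ∈ A ∧ b ∈ A
    · rw [if_pos h, if_pos h.symm, H.y_symm, hz1]
    · rw [if_neg h, if_neg (fun h' => h h'.symm)]
  · intro a b h
    by_cases hab : a ∈ A ∧ b ∈ A
    · rw [if_pos hab] at h
      by_cases h1 : H.y a b = 0
      · rw [h1, zero_add] at h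
        have h2 := hzP a b h
        exact ⟨h2.1, hab.1, hab.2, Or.inr ⟨hPB a h2.2.1, hPB b h2.2.2⟩⟩
      · have h2 := H.y_adj a b h1
        exact ⟨h2.ne, hab.1, hab.2, Or.inl h2⟩
    · rw [if_neg hab] at h
      exact absurd rfl h
  · intro a b
    by_cases hab : a ∈ A ∧ b ∈ A
    · rw [if_pos hab]
      refine (H.y_star a b).add ?_
      intro e he
      exact hDstar a e (hz2 a b e he).2.1
    · rw [if_neg hab]
      intro e he
      exact absurd rfl he
  · intro a
    by_cases ha : a ∈ A
    · rw [if_pos ha]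
      have h1 : ∀ b, (if a ∈ A ∧ b ∈ A then H.y a b + z a b else 0) =
          (H.y a b + z a b) + if b ∈ fB A B then H.y a b else 0 := by
        intro b
        by_cases hb : b ∈ A
        · rw [if_pos ⟨ha, hb⟩, if_neg (fun h => (hBA b).mp h hb), add_zero]
        · rw [if_neg (fun h => hb h.2), if_pos ((hBA b).mpr hb)]
          have h2 : z a b = 0 := by
            by_contra h3
            exact hb (hPA b (hzP a b h3).2.2)
          rw [h2, add_zero, ch_add_self]
      rw [Finset.sum_congr rfl fun b _ => h1 b, Finset.sum_add_distrib, Finset.sum_add_distrib,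
        H.eqn a, hz3 a, ← Finset.sum_filter]
      have h3 : univ.filter (fun b => b ∈ fB A B) = fB A B := by
        ext b; simp
      rw [h3]
      by_cases haB : a ∈ B
      · have haP : a ∈ fP A B := Finset.mem_filter.mpr ⟨Finset.mem_univ _, ha, haB⟩
        have h4 : D a = corr a • star X Y (H.f a) + ∑ b ∈ fB A B, H.y a b := if_pos haP
        rw [h4, add_smul]
        calc H.t a • star X Y (H.f a) + (corr a • star X Y (H.f a) + ∑ b ∈ fB A B, H.y a b) +
              ∑ b ∈ fB A B, H.y a b
            = H.t a • star X Y (H.f a) + corr a • star X Y (H.f a) +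
              (∑ b ∈ fB A B, H.y a b + ∑ b ∈ fB A B, H.y a b) := by abel
          _ = _ := by rw [ch_add_self, add_zero]
      · have haP : a ∉ fP A B := fun h => haB (hPB a h)
        have h4 : D a = 0 := if_neg haP
        have h5 : ∑ b ∈ fB A B, H.y a b = 0 := by
          refine Finset.sum_eq_zero fun b hb => ?_
          by_contra h6
          have h7 := H.y_adj a b h6
          have h8 := (Finset.mem_filter.mp hb).2
          rcases hadj a b h7 with h9 | h9
          · exact h8.2 h9.2
          · exact haB h9.1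
        rw [h4, h5, hcorr0 a haP, add_zero, add_zero, add_zero]
    · rw [if_neg ha, zero_smul]
      exact Finset.sum_eq_zero fun b _ => if_neg (fun h => ha h.1)
  · intro i hi
    have h1 : ∀ a, (if a ∈ A then H.t a + corr a else 0) =
        (H.t a + if a ∈ fB A B then H.t a else 0) + if a ∈ fP A B then corr a else 0 := by
      intro a
      by_cases ha : a ∈ A
      · rw [if_pos ha, if_neg (fun h => (hBA a).mp h ha), add_zero]
        by_cases haP : a ∈ fP A B
        · rw [if_pos haP]
        · rw [if_neg haP, hcorr0 a haP]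
      · rw [if_neg ha, if_pos ((hBA a).mpr ha), if_neg (fun h => ha (hPA a h)), z2_self, add_zero]
    rw [Finset.sum_congr rfl fun a _ => h1 a, Finset.sum_add_distrib, Finset.sum_add_distrib,
      H.total i hi, ← Finset.sum_filter, ← Finset.sum_filter]
    have h2 : (univ.filter (fun a => H.f a = i)).filter (fun a => a ∈ fB A B) =
        (fB A B).filter (fun a => H.f a = i) := by
      ext a
      simp only [Finset.mem_filter, Finset.mem_univ, true_and]
      tauto
    have h3 : (univ.filter (fun a => H.f a = i)).filter (fun a => a ∈ fP A B) =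
        (fP A B).filter (fun a => H.f a = i) := by
      ext a
      simp only [Finset.mem_filter, Finset.mem_univ, true_and]
      tauto
    rw [h2, h3, hcorrsum i hi]
    have h4 : ∑ a ∈ (fB A B).filter (fun a => H.f a = i), H.t a = rB H A B i := rfl
    rw [h4, add_assoc, z2_self, add_zero]

end

theorem homX_torso' (hG : Good X Y Q) (hk : k < Q) {F : SimpleGraph V} (H : HomX X Y F)
    (A B : Set V) (hAB : A ∪ B = Set.univ)
    (hadj : ∀ u v, F.Adj u v → (u ∈ A ∧ v ∈ A) ∨ (u ∈ B ∧ v ∈ B)) (hcard : (A ∩ B).ncard ≤ k) :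
    (∃ H' : HomX X Y (torso F A B), H'.f = H.f) ∨
      ∃ H' : HomX X Y (torso F B A), H'.f = H.f := by
  have hcard' : (B ∩ A).ncard ≤ k := by rw [Set.inter_comm]; exact hcard
  have hadj' : ∀ u v, F.Adj u v → (u ∈ B ∧ v ∈ B) ∨ (u ∈ A ∧ v ∈ A) :=
    fun u v h => (hadj u v h).symm
  have hS := card_image H A B hcard
  have h0 : ∃ i₀, i₀ ∈ Y \ (fP A B).image H.f := by
    have h1 := hG.card_lt
    have h2 := Finset.le_card_sdiff ((fP A B).image H.f) Y
    exact Finset.card_pos.mp (by omega)
  obtain ⟨i₀, hi₀⟩ := h0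
  have hi₀' := Finset.mem_sdiff.mp hi₀
  have hsum : rB H A B i₀ + rB H B A i₀ = 1 := by
    rw [← H.total i₀ hi₀'.1]
    unfold rB
    rw [← Finset.sum_union]
    · refine Finset.sum_congr ?_ fun _ _ => rfl
      ext a
      simp only [Finset.mem_union, Finset.mem_filter, Finset.mem_univ, true_and, fB]
      constructor
      · rintro (h | h)
        · exact h.2
        · exact h.2
      · intro h
        have h1 : a ∈ A ∪ B := by rw [hAB]; trivial
        have h2 : ¬ (a ∈ A ∧ a ∈ B) := by
          intro h3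
          apply hi₀'.2
          rw [← h]
          exact Finset.mem_image_of_mem _ (Finset.mem_filter.mpr ⟨Finset.mem_univ _, h3⟩)
        rcases h1 with h1 | h1
        · exact Or.inr ⟨⟨h1, fun h3 => h2 ⟨h1, h3⟩⟩, h⟩
        · exact Or.inl ⟨⟨h1, fun h3 => h2 ⟨h3, h1⟩⟩, h⟩
    · rw [Finset.disjoint_left]
      intro a h1 h2
      have h3 := (Finset.mem_filter.mp (Finset.mem_filter.mp h1).1).2
      have h4 := (Finset.mem_filter.mp (Finset.mem_filter.mp h2).1).2
      exact h3.2 h4.1
  rcases z2c (rB H A B i₀) with h1 | h1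
  · left
    refine core H A B hAB hadj ?_
    intro i hi
    rw [rB_const H A B hG hk hadj hcard i hi i₀ hi₀, h1]
  · right
    have h2 : rB H B A i₀ = 0 := by
      rw [h1] at hsum
      rcases z2c (rB H B A i₀) with h2 | h2
      · exact h2
      · rw [h2] at hsum
        exact absurd hsum (by decide)
    refine core H B A (by rw [Set.union_comm]; exact hAB) hadj' ?_
    intro i hi
    have hi' := hi
    rw [← fP_comm A B] at hi'
    rw [rB_const H B A hG hk hadj' hcard' i hi i₀ (by rw [← fP_comm A B]; exact hi₀), h2]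

end Pool.Agent.HomI
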