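import Pool.Agent.HomI.Cut
import Pool.Agent.HomI.Lab
import Pool.Agent.HomI.MenB
import Pool.Agent.HomI.CfiH
import Pool.Agent.HomI.SumF
import Pool.Agent.HomI.Cls
import Pool.Agent.HomV.Main

/-!
# Homomorphism counts from graphs with an excluded minor or an excluded immersion
-/

set_option autoImplicit false

namespace Pool.Agent.HomI

open Finset Classical Pool.Agent.HomV

/-- a graph without an immersion of `K_k` contains no homological copy of `X` over a homomorphism -/
theorem no_copy {k Q : ℕ} (hQ1 : k ≤ Q) (hQ2 : (k - 1) ^ 2 ≤ Q) {U : Type} [Fintype U]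
    {X : SimpleGraph U} (hG : Good X univ Q) {V : Type} [Fintype V] {F : SimpleGraph V}
    (hF : IsEmpty (CliqueImm k F)) (H : HomX X univ F)
    (hf : ∀ a b, F.Adj a b → X.Adj (H.f a) (H.f b)) : False := by
  obtain ⟨i₀, -⟩ := hG.ne
  have : Nonempty U := ⟨i₀⟩
  obtain ⟨P, hP1, hP2⟩ := exists_class F (fun a i => if H.f a = i then H.t a else 0) Q
    (fun S hS i j => cut_const hG H hf S hS i j) (fun i => by
      rw [← sum_filter]
      exact H.total i (mem_univ i))
  have hsurj : ∀ i : U, ∃ a ∈ P, H.f a = i := by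
    intro i
    by_contra hcon
    push Not at hcon
    have h1 := hP2 i
    rw [sum_eq_zero fun a ha => if_neg (hcon a ha)] at h1
    exact zero_ne_one h1
  have hcard : k ≤ P.card := by
    have h1 : (univ : Finset U) ⊆ P.image H.f := by
      intro i _
      obtain ⟨a, ha, rfl⟩ := hsurj i
      exact mem_image_of_mem _ ha
    have h2 := (card_le_card h1).trans card_image_le
    have h3 := hG.deg i₀ (mem_univ _)
    have h4 := card_filter_le (univ : Finset U) (fun j => X.Adj i₀ j)
    omega
  exact hF.false (cliqueImm_of_class F k P hcard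
    (fun a ha b hb S h1 h2 => hQ2.trans (hP1 a ha b hb S h1 h2))).some

/-- a complete subgraph which maps to a graph without triangles has at most two vertices -/
theorem ncard_le_two {U V : Type} {X : SimpleGraph U}
    (tri : ∀ a b c, X.Adj a b → X.Adj b c → X.Adj c a → False) (f : V → U) (C : Set V)
    (hC : ∀ u ∈ C, ∀ v ∈ C, u ≠ v → X.Adj (f u) (f v)) : C.ncard ≤ 2 := by
  by_contra hcon
  push Not at hcon
  obtain ⟨a, b, c, ha, hb, hc, hab, hac, hbc⟩ := (Set.two_lt_ncard_iff
    (Set.finite_of_ncard_pos (by omega))).mp hcon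
  exact tri (f a) (f b) (f c) (hC a ha b hb hab) (hC b hb c hc hbc) (hC c hc a ha hac.symm)

/-- no graph of the class contains a homological copy of `X` over a homomorphism -/
theorem no_copy_sparse {k Q : ℕ} (hQ1 : k ≤ Q) (hQ2 : (k - 1) ^ 2 ≤ Q) (hQ3 : 2 < Q) {U : Type}
    [Fintype U] {X : SimpleGraph U} (hG : Good X univ Q)
    (hQ : ∀ {V : Type} [Fintype V] (F : SimpleGraph V), InClass k F → IsEmpty (HomX X univ F))
    {V : Type} [Fintype V] {F : SimpleGraph V} (hF : Sparse k F) :
    ∀ H : HomX X univ F, (∀ a b, F.Adj a b → X.Adj (H.f a) (H.f b)) → False := by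
  induction hF with
  | minor F h => exact fun H _ => (hQ F h).false H
  | immersion F h => exact fun H hf => no_copy hQ1 hQ2 hG h H hf
  | glue F A B hAB hadj hcomplete hA hB ihA ihB =>
    intro H hf
    have h1 : (A ∩ B).ncard ≤ 2 := ncard_le_two hG.tri H.f _ fun u hu v hv huv =>
      hf u v (hcomplete u hu v hv huv)
    have hcomplete' : ∀ u ∈ B ∩ A, ∀ v ∈ B ∩ A, u ≠ v → F.Adj u v := fun u hu v hv =>
      hcomplete u ⟨hu.2, hu.1⟩ v ⟨hv.2, hv.1⟩
    have hT : ∀ (C D : Set V), (∀ u ∈ C ∩ D, ∀ v ∈ C ∩ D, u ≠ v → F.Adj u v) → ∀ a b,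
        (torso F C D).Adj a b → F.Adj a b := by
      intro C D hCD a b hab
      rw [torso_eq_ind hCD] at hab
      exact hab.1
    rw [← torso_eq_ind hcomplete] at ihA
    rw [← torso_eq_ind hcomplete'] at ihB
    rcases homX_torso' hG hQ3 H A B hAB hadj h1 with ⟨H', hH'⟩ | ⟨H', hH'⟩
    · exact ihA H' fun a b hab => by
        rw [hH']
        exact hf a b (hT A B hcomplete a b hab)
    · exact ihB H' fun a b hab => by
        rw [hH']
        exact hf a b (hT B A hcomplete' a b hab)

theorem main (k : ℕ) : ∃ (W W' : Type) (_ : Fintype W) (_ : Fintype W') (G : SimpleGraph W)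
    (H : SimpleGraph W'), IsEmpty (G ≃g H) ∧
      ∀ (V : Type) [Fintype V] (F : SimpleGraph V), Sparse k F →
        Nat.card (F →g G) = Nat.card (F →g H) := by
  obtain ⟨Q, hQ⟩ := no_homX k
  obtain ⟨U, _, X, hG⟩ := exists_good (Q + k + (k - 1) ^ 2 + 3)
  obtain ⟨i₀, _⟩ := hG.ne
  have hG' := hG.mono (Q' := Q) (by omega)
  exact ⟨_, _, inferInstance, inferInstance, cfi X 0, cfi X (Pi.single i₀ 1),
    cfi_not_iso hG (by omega) i₀, fun V _ F hF => cfi_hom' hG (by omega) i₀ F fun H hf =>
      no_copy_sparse (by omega) (by omega) (by omega) hG (fun F h => hQ X hG' F h) hF H hf⟩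

end Pool.Agent.HomI
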