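import Pool.Agent.HomI.Def
import Pool.Agent.CDFlow.Menger

/-!
# Edge-disjoint joins from `m` vertices to one vertex, `m` from each

Multigraph `MGraph (Option V) (F.edgeSet ⊕ Fin m × Fin m)`: the edges of `F` (ends: `e.1.out.1`, `e.1.out.2`), and
for every `(i, l)` an edge from the new vertex `none` to `v i`. `CDCut.MGraph.menger` with
`A = univ`, `s = none`, `t = some h`, `k = m ^ 2`: a cut `Z` which contains
no `some (v i)` contains all `m ^ 2` new edges; otherwise `S = {w | some w ∈ Z}` has `m ^ 2 ≤ cd F S`. The joins `J x`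
are disjoint, each has odd degree at `none`, so contains at least one new edge; there are `m ^ 2` of both, so
each contains exactly one, and every new edge is in exactly one. `K i l` = the edges of `F` in the join which
contains the new edge `(i, l)`.
-/

set_option autoImplicit false

namespace Pool.Agent.HomI

open Finset Classical

variable {V : Type} [Fintype V]

/-- the graph with a new vertex joined to `v i` by `m` edges -/
noncomputable def hub (F : SimpleGraph V) {m : ℕ} (v : Fin m → V) :
    CDCut.MGraph (Option V) (F.edgeSet ⊕ Fin m × Fin m) where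
  fst := Sum.elim (fun e => some e.1.out.1) fun _ => none
  snd := Sum.elim (fun e => some e.1.out.2) fun x => some (v x.1)

omit [Fintype V] in
theorem out_eq (e : Sym2 V) : s(e.out.1, e.out.2) = e := Quot.out_eq e

omit [Fintype V] in
theorem out_ne {F : SimpleGraph V} (e : F.edgeSet) : e.1.out.1 ≠ e.1.out.2 := by
  have h1 : s(e.1.out.1, e.1.out.2) ∈ F.edgeSet := by
    rw [out_eq]
    exact e.2
  exact F.ne_of_adj h1

omit [Fintype V] in
theorem mem_cut {E W : Type} [Fintype E] (G : CDCut.MGraph W E) (Z : Finset W) (e : E) :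
    e ∈ G.cut Z ↔ (G.fst e ∈ Z ∧ G.snd e ∉ Z) ∨ (G.fst e ∉ Z ∧ G.snd e ∈ Z) := by
  simp only [CDCut.MGraph.cut, mem_filter, mem_univ, true_and]

theorem cd_le_cut (F : SimpleGraph V) {m : ℕ} (v : Fin m → V) (Z : Finset (Option V)) (h : V) :
    cd F (univ.filter fun w => some w ∈ Z) ≤ ((hub F v).cut Z).card := by
  have hmem : ∀ w : V, w ∈ (univ.filter fun w => some w ∈ Z) ↔ some w ∈ Z := by
    intro w
    simp
  unfold cd
  generalize (univ.filter fun w => some w ∈ Z) = S at hmem
  apply card_le_card_of_surjOn (fun e : F.edgeSet ⊕ Fin m × Fin m => Sum.elim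
    (fun e => if e.1.out.1 ∈ S then (e.1.out.1, e.1.out.2) else (e.1.out.2, e.1.out.1))
    (fun _ => (h, h)) e)
  rintro ⟨x, y⟩ hp
  obtain ⟨-, hxy, hx, hy⟩ := mem_filter.1 (mem_coe.1 hp)
  have hxy' : F.Adj x y := hxy
  have hx' : x ∈ S := hx
  have hy' : y ∉ S := hy
  have he : s(x, y) ∈ F.edgeSet := hxy'
  have h1 := out_eq s(x, y)
  refine ⟨Sum.inl ⟨s(x, y), he⟩, ?_, ?_⟩
  · rw [mem_coe, mem_cut]
    change (some (s(x, y)).out.1 ∈ Z ∧ some (s(x, y)).out.2 ∉ Z) ∨
      (some (s(x, y)).out.1 ∉ Z ∧ some (s(x, y)).out.2 ∈ Z)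
    rw [← hmem, ← hmem]
    rcases Sym2.eq_iff.1 h1 with ⟨h2, h3⟩ | ⟨h2, h3⟩
    · rw [h2, h3]
      exact Or.inl ⟨hx', hy'⟩
    · rw [h2, h3]
      exact Or.inr ⟨hy', hx'⟩
  · change (if (s(x, y)).out.1 ∈ S then ((s(x, y)).out.1, (s(x, y)).out.2) else
      ((s(x, y)).out.2, (s(x, y)).out.1)) = (x, y)
    rcases Sym2.eq_iff.1 h1 with ⟨h2, h3⟩ | ⟨h2, h3⟩
    · rw [h2, h3, if_pos hx']
    · rw [h2, h3, if_neg hy']

omit [Fintype V] in
theorem deg_none (F : SimpleGraph V) {m : ℕ} (v : Fin m → V)
    (J : Finset (F.edgeSet ⊕ Fin m × Fin m)) : (hub F v).deg J none = J.toRight.card := by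
  unfold CDCut.MGraph.deg
  rw [card_filter, card_filter, ← sum_add_distrib, sum_sum_eq_sum_toLeft_add_sum_toRight]
  rw [show J.toRight.card = 0 + J.toRight.card from (zero_add _).symm, card_eq_sum_ones J.toRight]
  congr 1
  · refine sum_eq_zero fun e _ => ?_
    have h1 : ¬ (hub F v).fst (Sum.inl e) = none := Option.some_ne_none _
    have h2 : ¬ (hub F v).snd (Sum.inl e) = none := Option.some_ne_none _
    simp only [h1, h2, if_false, add_zero]
  · refine sum_congr rfl fun x _ => ?_
    have h1 : (hub F v).fst (Sum.inr x) = none := rfl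
    have h2 : ¬ (hub F v).snd (Sum.inr x) = none := Option.some_ne_none _
    simp only [h1, h2, if_false, if_true, add_zero]

omit [Fintype V] in
theorem deg_some (F : SimpleGraph V) {m : ℕ} (v : Fin m → V)
    (J : Finset (F.edgeSet ⊕ Fin m × Fin m)) (w : V) :
    (hub F v).deg J (some w) =
      ((J.toLeft.map (Function.Embedding.subtype _)).filter fun e => w ∈ e).card +
        (J.toRight.filter fun x => v x.1 = w).card := by
  unfold CDCut.MGraph.deg
  rw [card_filter, card_filter, ← sum_add_distrib, card_filter, sum_map, card_filter]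
  conv_lhs => rw [← J.toLeft_disjSum_toRight, sum_disjSum]
  congr 1
  · refine sum_congr rfl fun e _ => ?_
    have h1 : ((hub F v).fst (Sum.inl e) = some w) ↔ e.1.out.1 = w := Option.some_inj
    have h2 : ((hub F v).snd (Sum.inl e) = some w) ↔ e.1.out.2 = w := Option.some_inj
    have h3 : w ∈ (Function.Embedding.subtype (fun e => e ∈ F.edgeSet)) e ↔
        (e.1.out.1 = w ∨ e.1.out.2 = w) := by
      change w ∈ e.1 ↔ _
      conv_lhs => rw [← out_eq e.1, Sym2.mem_iff]
      exact or_congr eq_comm eq_comm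
    have h4 := out_ne e
    simp only [h1, h2]
    by_cases h5 : e.1.out.1 = w
    · have h6 : e.1.out.2 ≠ w := fun h => h4 (h5.trans h.symm)
      rw [if_pos h5, if_neg h6, if_pos (h3.2 (Or.inl h5))]
    · by_cases h6 : e.1.out.2 = w
      · rw [if_neg h5, if_pos h6, if_pos (h3.2 (Or.inr h6))]
      · rw [if_neg h5, if_neg h6, if_neg fun h => (h3.1 h).elim h5 h6]
  · refine sum_congr rfl fun x _ => ?_
    have h1 : ¬ (hub F v).fst (Sum.inr x) = some w := fun h => by cases h
    have h2 : ((hub F v).snd (Sum.inr x) = some w) ↔ v x.1 = w := Option.some_inj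
    simp only [h1, h2, if_false, zero_add]

theorem exists_joins (F : SimpleGraph V) (m : ℕ) (h : V) (v : Fin m → V)
    (hv : Function.Injective v) (hh : ∀ i, v i ≠ h)
    (hc : ∀ S : Finset V, (∃ i, v i ∈ S) → h ∉ S → m ^ 2 ≤ cd F S) :
    ∃ K : Fin m → Fin m → Finset (Sym2 V), (∀ i l, ∀ e ∈ K i l, e ∈ F.edgeSet) ∧
      (∀ i l i' l', (i, l) ≠ (i', l') → Disjoint (K i l) (K i' l')) ∧
      ∀ i l w, (Odd ((K i l).filter fun e => w ∈ e).card ↔ (w = v i ∨ w = h)) := by
  obtain ⟨J, -, hJ1, hJ2⟩ := (hub F v).menger univ none (some h) (Option.some_ne_none h).symm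
    (m ^ 2) (by
      intro Z hZ1 hZ2
      rw [@univ_inter _ _ (fun a b => propDecidable (a = b))]
      by_cases hi : ∃ i, some (v i) ∈ Z
      · obtain ⟨i, hi⟩ := hi
        refine (hc (univ.filter fun w => some w ∈ Z) ⟨i, by simpa using hi⟩ (by simpa using hZ2)).trans
          (cd_le_cut F v Z h)
      · push Not at hi
        have h1 : (univ : Finset (Fin m × Fin m)).map Function.Embedding.inr ⊆
            (hub F v).cut Z := by
          intro e he
          obtain ⟨x, -, rfl⟩ := mem_map.1 he
          exact (mem_cut _ _ _).2 (Or.inl ⟨hZ1, hi x.1⟩)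
        have h2 := card_le_card h1
        rw [card_map, card_univ, Fintype.card_prod, Fintype.card_fin] at h2
        rw [sq]
        exact h2)
  -- every join has a new edge
  have hne : ∀ x, ∃ y, y ∈ (J x).toRight := by
    intro x
    have h1 := (hJ2 x none).not.2 fun h => h.1 rfl
    rw [deg_none, Nat.not_even_iff_odd] at h1
    exact card_pos.1 h1.pos
  choose g hg using hne
  have hginj : Function.Injective g := by
    intro x x' hxx
    by_contra hne
    have h1 := hJ1 x x' hne
    have h2 := mem_toRight.1 (hg x)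
    have h3 := mem_toRight.1 (hg x')
    rw [← hxx] at h3
    exact disjoint_left.1 h1 h2 h3
  have hgbij : Function.Bijective g := by
    rw [Fintype.bijective_iff_injective_and_card]
    refine ⟨hginj, ?_⟩
    rw [Fintype.card_fin, Fintype.card_prod, Fintype.card_fin, sq]
  have hright : ∀ x, (J x).toRight = {g x} := by
    intro x
    ext y
    rw [mem_singleton]
    constructor
    · intro hy
      obtain ⟨x', rfl⟩ := hgbij.2 y
      by_contra hne
      have h1 : x ≠ x' := fun h => hne (by rw [h])
      exact disjoint_left.1 (hJ1 x x' h1) (mem_toRight.1 hy) (mem_toRight.1 (hg x'))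
    · rintro rfl
      exact hg x
  let e := Equiv.ofBijective g hgbij
  refine ⟨fun i l => (J (e.symm (i, l))).toLeft.map (Function.Embedding.subtype _), ?_, ?_, ?_⟩
  · intro i l a ha
    obtain ⟨b, -, rfl⟩ := mem_map.1 ha
    exact b.2
  · intro i l i' l' hne
    rw [disjoint_map]
    rw [disjoint_left]
    intro a ha ha'
    exact disjoint_left.1 (hJ1 _ _ fun h => hne (e.symm.injective h)) (mem_toLeft.1 ha)
      (mem_toLeft.1 ha')
  · intro i l w
    have h1 := hJ2 (e.symm (i, l)) (some w)
    rw [deg_some, hright] at h1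
    have h2 : g (e.symm (i, l)) = (i, l) := e.apply_symm_apply (i, l)
    rw [h2] at h1
    have h3 : (some w ≠ none ∧ some w ≠ some h) ↔ w ≠ h := by
      rw [Ne, Ne, Option.some_inj]
      exact ⟨fun h => h.2, fun h => ⟨Option.some_ne_none _, h⟩⟩
    rw [h3] at h1
    by_cases hw : w = v i
    · subst hw
      rw [filter_singleton, if_pos rfl, card_singleton] at h1
      have h4 := h1.2 (hh i)
      rw [Nat.even_add_one, Nat.not_even_iff_odd] at h4
      exact ⟨fun _ => Or.inl rfl, fun _ => h4⟩
    · rw [filter_singleton, if_neg fun h => hw h.symm, card_empty, add_zero] at h1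
      rw [← Nat.not_even_iff_odd, h1, not_not]
      exact ⟨fun h => Or.inr h, fun h => h.resolve_left hw⟩

end Pool.Agent.HomI
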